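import Pool.Agent.TF.Stmts

/-! ASY: the body of S08884, from MAI and STA. -/

set_option autoImplicit false

open scoped Pointwise

namespace Pool.Agent.TF.H12

theorem asy (hmai : MaiStmt) (hsta : StaStmt) : AsyStmt := by
  obtain ⟨K, hK, hmain⟩ := hmai
  intro hall
  have hε : (0 : ℝ) < 1 / (20 * K + 2) := by positivity
  obtain ⟨n, hn, H, i1, i2, A, B, h1, h2, h3, h4⟩ :=
    hall (1 / (20 * K + 2)) hε (⌈Real.exp (20 * K + 1)⌉₊ + 2)
  classical
  set ε : ℝ := 1 / (20 * K + 2) with hεd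
  have hε2 : ε ≤ 1 / 2 := by
    rw [hεd]
    apply one_div_le_one_div_of_le (by norm_num)
    linarith
  have hn2 : 2 ≤ n := by omega
  obtain ⟨n', F, Ω, i3, P, x, c, hb, hs, hH⟩ := hsta ε n hε hε2 hn2 H A B h1 h2 h3 h4
  have hfin := hmain H n' F (Real.log (Fintype.card H)) (10 * ε * Real.log (Fintype.card H) + 10)
    Ω P x c hb hs hH
  set l : ℝ := Real.log (Fintype.card H) with hl
  have hnpos : (0 : ℝ) < n := by have : 0 < n := by omega
                                 exact_mod_cast this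
  -- `log n ≤ l`
  have hlog : Real.log n ≤ l := by
    have h5 : Real.log ((n : ℝ) ^ (2 - ε)) ≤ l := Real.log_le_log (by positivity) h1
    rw [Real.log_rpow hnpos] at h5
    have h6 : 0 ≤ Real.log n := Real.log_nonneg (by exact_mod_cast (by omega : 1 ≤ n))
    nlinarith
  have hnl : 20 * K + 1 ≤ Real.log n := by
    rw [Real.le_log_iff_exp_le hnpos]
    have h7 : Real.exp (20 * K + 1) ≤ (⌈Real.exp (20 * K + 1)⌉₊ : ℝ) := Nat.le_ceil _
    have h8 : ((⌈Real.exp (20 * K + 1)⌉₊ + 2 : ℕ) : ℝ) ≤ (n : ℝ) := by exact_mod_cast hn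
    push_cast at h8
    linarith
  have hl0 : 0 ≤ l := by linarith
  have hKε : K * (10 * ε) ≤ 1 / 2 := by
    rw [hεd]
    rw [show K * (10 * (1 / (20 * K + 2))) = (10 * K) / (20 * K + 2) by ring]
    rw [div_le_div_iff₀ (by positivity) (by norm_num)]
    linarith
  have : l ≤ l / 2 + 10 * K := by
    calc l ≤ K * (10 * ε * l + 10) := hfin
      _ = (K * (10 * ε)) * l + 10 * K := by ring
      _ ≤ 1 / 2 * l + 10 * K := by
        have := mul_le_mul_of_nonneg_right hKε hl0
        linarith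
      _ = l / 2 + 10 * K := by ring
  linarith

end Pool.Agent.TF.H12
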