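import Pool.Agent.Helper12_TF.MAI
import Pool.Agent.Helper12_TF.ASY
import Pool.Agent.Helper20_TF.MON
import Pool.Agent.Helper20_TF.CZE
import Pool.Agent.Helper9_TF.SUB
import Pool.Agent.Helper27_TF.GIB
import Pool.Agent.Helper77_TF.SAM
import Pool.Agent.Helper77_TF.GL2
import Pool.Agent.Helper77_TF.EXT
import Pool.Agent.Helper60_TF.CAL
import Pool.Agent.Helper60_TF.STA
import Pool.Agent.Helper90_TF.CNW
import Pool.Agent.Helper69_TF.CNS
import Pool.Agent.Helper24_TF.PR1
import Pool.Agent.Helper67_TF.PR2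
import Pool.Agent.Helper24_TF.UPP
import Pool.Agent.Helper11_TF.GLU
import Pool.Agent.Helper67_TF.THI
import Pool.Agent.Helper67_TF.MUL
import Pool.Agent.Helper92_TF.BOO
import Pool.Agent.Helper69_TF.PLN
import Pool.Agent.Helper69_TF.PLF
import Pool.Agent.Helper97_TF.PLA
import Pool.Agent.Helper80_TF.PLB
import Pool.Agent.Helper97_TF.MEM
import Pool.Agent.Helper80_TF.MOV
import Pool.Agent.Helper80_TF.MTH
import Pool.Agent.Helper97_TF.FRE
import Pool.Agent.Helper75_TF.FIN
import Pool.Agent.Helper62_TF.CUB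
import Pool.Agent.Helper35_TF.REC
import Pool.Agent.Helper35_TF.MO1

/-! Assembly of squad TF (MP_589914_co, S08884). -/

set_option autoImplicit false

namespace Pool.Agent.TF

theorem lib : Lib := ⟨H20.mon, H9.sub, H27.gib, H27.gic, H77.sam, H77.gl2, H77.ext, H27.uni⟩

theorem cnqS : CnqStmt := H90.cnq (H90.cnw H60.al1)
theorem pr1S : Pr1Stmt := H24.pr1 lib (H90.cnw H60.al1) H69.cns H60.al1
theorem pr2S : Pr2Stmt := H67.pr2 lib pr1S H60.al1
theorem uppS : UppStmt := H24.upp lib cnqS
theorem thiS : ThiStmt := H67.thi lib pr2S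

theorem booS : BooStmt := H92.boo lib
theorem freS : FreStmt := H97.fre lib uppS
theorem memS : MemStmt := H97.mem lib
theorem staS : StaStmt := H60.sta H27.uni
theorem cubS : CubStmt := H62.cub lib H60.cal
theorem mulS : MulStmt := H67.mul lib thiS cubS (H11.glu lib)
theorem plaS : PlaStmt := H97.pla lib mulS booS H69.pln pr2S
theorem plbS : PlbStmt := H80.plb lib mulS booS H69.plf pr2S
theorem recS : RecStmt := H35.rec_ lib mulS pr2S
theorem mo1S : Mo1Stmt := H35.mo1 lib uppS pr2S
theorem movS : MovStmt := H80.mov lib mo1S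
theorem mthS : MthStmt := H80.mth lib movS uppS
theorem czeS : CzeStmt := H20.cze lib uppS pr2S plbS
theorem finS : FinStmt := H75.fin lib mthS plaS freS
theorem maiS : MaiStmt := H12.mai recS memS czeS finS
theorem asyS : AsyStmt := H12.asy maiS staS

end Pool.Agent.TF
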