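import Pool.Agent.TF.Stmts

/-! MAI: the main inequality, from REC, MEM, CZE, FIN. -/

set_option autoImplicit false

namespace Pool.Agent.TF.H12

variable {G : Type} [AddCommGroup G] [Fintype G] [DecidableEq G] {n : ℕ}

theorem base_mono {F : Fam G n} {l e e' : ℝ} (h : Base F l e) (hee : e ≤ e') : Base F l e' where
  e0 := h.e0.trans hee
  hN := h.hN
  hn := by have := h.hn; linarith
  hlab := fun σ k => by have := h.hlab σ k; linarith
  hW := h.hW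

theorem base_l0 {F : Fam G n} {l e : ℝ} (h : Base F l e) : 0 ≤ l := by
  rw [← h.hN]
  apply Real.log_nonneg
  have : 0 < Fintype.card G := Fintype.card_pos_iff.mpr ⟨0⟩
  exact_mod_cast this

theorem mai (hrec : RecStmt) (hmem : MemStmt) (hcze : CzeStmt) (hfin : FinStmt) : MaiStmt := by
  obtain ⟨R, hR⟩ : ∃ R : ℕ, R + 1 = 2 ^ 31 := ⟨2 ^ 31 - 1, by norm_num⟩
  have hR2 : 2 ≤ R := by
    by_contra h
    have : R ≤ 1 := by omega
    have h2 : R + 1 ≤ 2 := by omega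
    rw [hR] at h2
    norm_num at h2
  have hRr : ((R : ℝ) + 1) = 2 ^ 31 := by exact_mod_cast hR
  set M : ℝ := 2 ^ (R + 27) * (R : ℝ) ^ 2 with hM
  have hM0 : 0 ≤ M := by rw [hM]; exact mul_nonneg (pow_nonneg (by norm_num) _) (sq_nonneg _)
  clear_value M
  refine ⟨2 * (2 ^ 30 * M + 2 ^ 36) * 200000, by positivity, ?_⟩
  intro G _ _ _ n F l e Ω _ P x c hb hs hH
  obtain ⟨Ω1, i1, P1, x1, y1, h1, k1, k2, hrel, hent⟩ := hrec G n F l e Ω P x c hb hs hH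
  have hb' : Base F l (200000 * e) := base_mono hb (by have := hb.e0; linarith)
  obtain ⟨V, κ, c0, hall⟩ := hmem G n F l (200000 * e) Ω1 P1 x1 y1 h1 k1 k2 hb' hrel hent
  obtain ⟨Ω2, i2, P2, x2, y2, h2, c2, hM2, hC2⟩ := hall 2
  obtain ⟨Ω3, i3, P3, x3, y3, h3, c3, hM3, hC3⟩ := hall R
  have e1 := hcze G n F l (200000 * e) V κ c0 Ω2 P2 x2 y2 h2 c2 hM2 hC2
  have e2 := hfin G n F l (200000 * e) V κ c0 R Ω3 P3 x3 y3 h3 c3 hR2 hM3 hC3
  rw [hRr, ← hM] at e2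
  have : l / (2 : ℝ) ^ 31 * 2 ^ 30 = l / 2 := by ring
  have e3 : (2 : ℝ) ^ 30 * c0 ≤ l / 2 + 2 ^ 30 * M * (200000 * e) := by
    have := mul_le_mul_of_nonneg_left e2 (by positivity : (0 : ℝ) ≤ 2 ^ 30)
    nlinarith
  nlinarith

end Pool.Agent.TF.H12
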